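import Pool.Agent.Run7.h374.Dich

/-!
# Spanning in Denjoy-Carleman classes

For a regular weight sequence `M_n = n! m_n` (`m` log-convex, `m_0 = 1 ≤ m_1`): `P` spans `F` for
every `q ∈ C_1^∞` of the class `C{M_n}` if and only if `∑ M_n / M_{n+1} = ∞`.
-/

set_option autoImplicit false

open Run7.h374

/-- Let `m 0 = 1 ≤ m 1`, `m > 0` log-convex, and consider the class `InClass m` of the functions
with `|q^(n)| ≤ A ρ^n n! m n` for some `A`, `ρ`. Then `P` spans `F` for every `q ∈ C_1^∞` of this
class if and only if `∑ (n! m n) / ((n+1)! m (n+1))` diverges. This holds for real and for complex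
scalars. -/
theorem Pool.Agent.Results.MP_aabf10_an.DenjoyCarleman.result (m : ℕ → ℝ) (hm : IsReg m) :
    ((∀ q : ℝ → ℝ, IsPot q → InClass m q → ∀ lam, IsHillSpectrum q lam → PSpans ℂ lam) ↔
      ¬ Summable fun n : ℕ => fm m n / fm m (n + 1)) ∧
    ((∀ q : ℝ → ℝ, IsPot q → InClass m q → ∀ lam, IsHillSpectrum q lam → PSpans ℝ lam) ↔
      ¬ Summable fun n : ℕ => fm m n / fm m (n + 1)) := by
  refine ⟨dichotomy hm, (forall_congr' fun q => ?_).trans (dichotomy hm)⟩
  exact forall_congr' fun _ => forall_congr' fun _ => forall_congr' fun lam =>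
    forall_congr' fun hlam => spans_real_iff hlam
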