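import Pool.Agent.Run7.h374.Obst2

/-!
# Spanning fails if the potential is flat at a single point

`q ∈ C_1^∞` with infinitely many open lacunae; if all derivatives of `q` of order `≥ 1` vanish at
one point, then `P` does not span `F`.
-/

set_option autoImplicit false

open Run7.h374

/-- If `q ∈ C_1^∞` has infinitely many open lacunae and `q` is flat at some point `x₀` (all
derivatives of order at least one vanish there), then `P` does not span `F`, neither over the real
nor over the complex numbers. -/
theorem Pool.Agent.Results.MP_aabf10_an.FlatPoint.result (q : ℝ → ℝ) (hq : IsPot q)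
    (lam : ℕ → ℝ) (hlam : IsHillSpectrum q lam)
    (hg : {n : ℕ+ | 0 < gap lam n}.Infinite)
    (x₀ : ℝ) (hflat : ∀ j : ℕ, 1 ≤ j → iteratedDeriv j q x₀ = 0) :
    ¬ PSpans ℝ lam ∧ ¬ PSpans ℂ lam :=
  ⟨fun h => flat_obstruction hq hlam hg hflat ((spans_real_iff hlam).1 h),
    flat_obstruction hq hlam hg hflat⟩
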