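import Pool.Agent.Run7.h374.Jet2

/-!
# If `P` spans `F`, a potential of the isospectral manifold is determined by its jet at one point
-/

set_option autoImplicit false

open Run7.h374

/-- Let `P` span `F` (real or complex scalars) for `q ∈ C_1^∞`, and let `p ∈ C_1^∞` have the same
periodic and the same antiperiodic spectrum. If all derivatives of `p` at `x₀` agree with those of
`q` at `y₀` (for `ε = 1`), or with those of the reflected potential (for `ε = -1`), then
`p (x₀ + x) = q (y₀ + ε x)` for all `x`. -/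
theorem Pool.Agent.Results.MP_aabf10_an.JetUnique.result (p q : ℝ → ℝ) (hp : IsPot p)
    (hq : IsPot q) (hiso : Isospectral p q) (lam : ℕ → ℝ) (hlam : IsHillSpectrum q lam)
    (hspan : PSpans ℝ lam ∨ PSpans ℂ lam) (x₀ y₀ ε : ℝ) (hε : ε = 1 ∨ ε = -1)
    (hjet : ∀ j : ℕ, iteratedDeriv j p x₀ = ε ^ j * iteratedDeriv j q y₀) :
    ∀ x : ℝ, p (x₀ + x) = q (y₀ + ε * x) :=
  jet_unique₂ hp hq hlam hspan hiso hε hjet
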