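import Pool.Agent.Run7.h374.Final

/-!
# A criterion for the spanning of `F` by the polynomials, in terms of the lengths of the lacunae

For every real, smooth potential `q` of period `1`: `P` spans `F` if and only if for every infinite
set `S` of open lacunae `∑_{n ∈ S} n⁴ / (ℓ_n ∏_{m ∈ S, m ≠ n} (1 - n² / m²)²) = ∞`.
-/

set_option autoImplicit false

open Run7.h374

/-- For every `q ∈ C_1^∞` the sorted list `lam` of the periodic and antiperiodic eigenvalues
(counted with multiplicity) exists and is unique, and `P` spans `F` (with real or with complex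
scalars) if and only if the series of `LacCriterion` diverges for every infinite set of
open lacunae. -/
theorem Pool.Agent.Results.MP_aabf10_an.SpanCriterion.result (q : ℝ → ℝ) (hq : IsPot q) :
    (∃! lam : ℕ → ℝ, IsHillSpectrum q lam) ∧
    ∀ lam : ℕ → ℝ, IsHillSpectrum q lam →
      (PSpans ℝ lam ↔ LacCriterion lam) ∧ (PSpans ℂ lam ↔ LacCriterion lam) := by
  refine ⟨?_, fun lam hlam => ⟨(spans_real_iff hlam).trans (criterion hq hlam),
    criterion hq hlam⟩⟩
  obtain ⟨lam, hlam⟩ := exists_hillSpectrum hq.1.continuous hq.2
  refine ⟨lam, hlam, fun lam' hlam' => ?_⟩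
  ext n
  have h := abs_lam_sub' hq.1.continuous hq.2 hq.1.continuous hq.2 hlam hlam' n
  rw [sub_self, norm_zero] at h
  have := abs_nonpos_iff.1 h
  linarith
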